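import Pool.Agent.L5helper61.WF.Pts

/-!
# Tame representations: one point on each component suffices

Question Q1 asks whether all continuous representations of `G_K`, tamely ramified at a finite set `S`
of primes and unramified outside `S`, into `GL_n(A)` have finite image, for all number fields `K` and
all complete Noetherian local rings `A` with finite residue field of characteristic `p`.

We show that Q1 for all rings `A` in which `p` is not a zero divisor is equivalent to Q1 for the ring
`ℤ_p`; no ring of characteristic `p` is needed.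

The theorem behind this is about a single representation `ρ` over an arbitrary Noetherian local ring
`A` with finite residue field of characteristic `p`.  We assume that the finite extensions of `K`
have no `ℤ_p`-extensions which are tame at `S` and unramified outside `S` (class field theory).  The
image of `ρ` in `GL_n(A[1/p])` is finite if each irreducible component of `Spec A[1/p]` contains one
point at which the image of `ρ` is finite.  For example, if `A` is a domain of characteristic `0`,
then `ρ` has finite image as soon as one of its reductions modulo prime ideals `P` with `p ∉ P` has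
finite image.  The image of `ρ` in `GL_n(A)` is finite if and only if, in addition, `ρ` has
torsion image modulo the primes `P` with `dim A/P = 1` on those components on which `p` vanishes.

The main point of the proof is a rigidity theorem: if `ρ` is trivial modulo a prime `P`, `p ∉ P`, on
an open subgroup `U`, then `ρ(U)` is trivial in `GL_n(A_P)`. Indeed, let `I_k` be the inverse image in
`A` of the `k`-th power of the maximal ideal of `A_P`. If `ρ(U)` is trivial modulo `I_k`, then
`g ↦ ρ(g) - 1` is a homomorphism from `U` to the finitely generated module of the matrices over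
`I_k/I_{k+1}`; it is trivial on an open subgroup, because there are no `ℤ_p`-extensions, and
`I_k/I_{k+1}` has no torsion.
-/

set_option autoImplicit false

open NumberField IsLocalRing

attribute [-instance] DivisionRing.toRatAlgebra

namespace Pool.Agent.Results.MP_924d78_nt.OnePointPerComponent

/-- the absolute Galois group of the field `F`, with the Krull topology -/
abbrev AbsGal (F : Type) [Field F] : Type := Gal(AlgebraicClosure F/F)

/-- the ring of all algebraic integers -/
abbrev ZBar : Type := 𝓞 (AlgebraicClosure ℚ)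

/-- `τ` lies in the inertia group at `P` -/
def Inertia (P : Ideal ZBar) (τ : AbsGal ℚ) : Prop := ∀ x : ZBar, τ • x - x ∈ P

/-- For every `x ≠ 0` the quotient `(τ x - x) / x` lies in the maximal ideal of the localization of
the ring of all algebraic integers at `P`: the elements of the inertia group at `P` with this
property form the wild inertia group. -/
def Wild (P : Ideal ZBar) (τ : AbsGal ℚ) : Prop :=
  ∀ x : ZBar, ∃ b : ZBar, b ∉ P ∧ ∃ y ∈ P, b * (τ • x - x) = y * x

/-- the prime of the number field `K` below `P` -/
noncomputable def below (K : IntermediateField ℚ (AlgebraicClosure ℚ)) (P : Ideal ZBar) :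
    Ideal (𝓞 K) := P.comap (algebraMap (𝓞 K) ZBar)

/-- The homomorphism `f` from the absolute Galois group of `K` is unramified outside `S` and at most
tamely ramified at `S`: it is trivial on the inertia groups at the primes which are not above `S`,
and on the wild inertia groups at the primes above `S`. -/
def Tame (K : IntermediateField ℚ (AlgebraicClosure ℚ)) (S : Set (Ideal (𝓞 K))) {E : Type}
    [Group E] (f : K.fixingSubgroup →* E) : Prop :=
  ∀ P : Ideal ZBar, P.IsMaximal → ∀ τ : K.fixingSubgroup, Inertia P τ →
    (below K P ∈ S → Wild P τ) → f τ = 1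

/-- Q1 for the coefficient ring `A` (with its adic topology): for all number fields `K`, all finite
sets `S` of primes of `K` and all `n`, every continuous homomorphism from the absolute Galois group
of `K` to `GL_n(A)`, unramified outside `S` and at most tamely ramified at `S`, has finite
image. -/
def FiniteOver (A : Type) [CommRing A] [IsLocalRing A] : Prop :=
  ∀ _ : TopologicalSpace A, IsAdic (maximalIdeal A) →
    ∀ (K : IntermediateField ℚ (AlgebraicClosure ℚ)), FiniteDimensional ℚ K →
    ∀ S : Set (Ideal (𝓞 K)), S.Finite → ∀ (n : ℕ) (ρ : K.fixingSubgroup →* GL (Fin n) A),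
      Continuous ρ → Tame K S ρ → (Set.range ρ).Finite

/-- the primes of `K'` above the primes in `S` -/
def above (K : IntermediateField ℚ (AlgebraicClosure ℚ)) (S : Set (Ideal (𝓞 K)))
    (K' : IntermediateField ℚ (AlgebraicClosure ℚ)) : Set (Ideal (𝓞 K')) :=
  {q | ∃ P : Ideal ZBar, P.IsMaximal ∧ below K P ∈ S ∧ q = below K' P}

/-- No finite extension `K'` of `K` has a `ℤ_p`-extension which is unramified outside `S` and at most
tamely ramified at `S` (this is true by class field theory). -/
def NoZpExtension (p : ℕ) [Fact p.Prime] (K : IntermediateField ℚ (AlgebraicClosure ℚ))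
    (S : Set (Ideal (𝓞 K))) : Prop :=
  ∀ K' : IntermediateField ℚ (AlgebraicClosure ℚ), K ≤ K' → FiniteDimensional ℚ K' →
    ∀ χ : K'.fixingSubgroup →* Multiplicative ℤ_[p], Continuous χ → Tame K' (above K S K') χ →
      ∀ g, χ g = 1

/-- `ρ` modulo `P` -/
def modulo {A : Type} [CommRing A] {n : ℕ} {G : Type} [Group G] (P : Ideal A)
    (ρ : G →* GL (Fin n) A) : G →* GL (Fin n) (A ⧸ P) :=
  (Matrix.GeneralLinearGroup.map (Ideal.Quotient.mk P)).comp ρ

/-- the representation over `A[1/p]` defined by `ρ` -/
noncomputable def inverting (p : ℕ) {A : Type} [CommRing A] {n : ℕ} {G : Type} [Group G]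
    (ρ : G →* GL (Fin n) A) : G →* GL (Fin n) (Localization.Away (p : A)) :=
  (Matrix.GeneralLinearGroup.map (algebraMap A (Localization.Away (p : A)))).comp ρ

/-- For every minimal prime `Q` of `A` with `p ∉ Q` there is one prime `P` that contains `Q`, with
`p ∉ P`, such that `ρ` has finite image modulo `P`. -/
def OnePoint (p : ℕ) {A : Type} [CommRing A] {n : ℕ} {G : Type} [Group G]
    (ρ : G →* GL (Fin n) A) : Prop :=
  ∀ Q ∈ minimalPrimes A, (p : A) ∉ Q → ∃ P : Ideal A, P.IsPrime ∧ Q ≤ P ∧ (p : A) ∉ P ∧
    (Set.range (modulo P ρ)).Finite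

/-- For every minimal prime `Q` of `A` with `p ∈ Q`, and every prime `P` that contains `Q` with
`dim A / P = 1`, every matrix `ρ g` has finite order modulo `P`. -/
def TorsionOnRest (p : ℕ) {A : Type} [CommRing A] {n : ℕ} {G : Type} [Group G]
    (ρ : G →* GL (Fin n) A) : Prop :=
  ∀ Q ∈ minimalPrimes A, (p : A) ∈ Q → ∀ P : Ideal A, P.IsPrime → ¬ P.IsMaximal →
    (∀ P' : Ideal A, P'.IsPrime → P < P' → P'.IsMaximal) → Q ≤ P →
    ∀ g, ∃ N : ℕ, N ≠ 0 ∧ modulo P ρ g ^ N = 1

theorem result (p : ℕ) [Fact p.Prime] :
    (FiniteOver ℤ_[p] ↔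
      ∀ (A : Type) [CommRing A] [IsLocalRing A] [IsNoetherianRing A],
        IsAdicComplete (maximalIdeal A) A → Finite (ResidueField A) → (p : A) ∈ maximalIdeal A →
        (p : A) ∈ nonZeroDivisors A → FiniteOver A) ∧
    ∀ (K : IntermediateField ℚ (AlgebraicClosure ℚ)) [FiniteDimensional ℚ K]
      (S : Set (Ideal (𝓞 K))), S.Finite → NoZpExtension p K S →
      ∀ (A : Type) [CommRing A] [IsLocalRing A] [IsNoetherianRing A] [TopologicalSpace A],
      IsAdic (maximalIdeal A) → Finite (ResidueField A) → (p : A) ∈ maximalIdeal A →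
      ∀ (n : ℕ) (ρ : K.fixingSubgroup →* GL (Fin n) A), Continuous ρ → Tame K S ρ →
      (OnePoint p ρ → (Set.range (inverting p ρ)).Finite) ∧
      ((Set.range ρ).Finite ↔ OnePoint p ρ ∧ TorsionOnRest p ρ) := by
  refine ⟨⟨?_, ?_⟩, ?_⟩
  · intro h A _ _ _ hcomp hfin hp hnz
    exact Pool.Agent.L5helper61.WF.main_flat (p := p) h A (hcomp := hcomp) hfin hp hnz
  · intro h
    refine h ℤ_[p] inferInstance ?_ ?_ ?_
    · have e : ResidueField ℤ_[p] ≃+* ZMod p := PadicInt.residueField
      exact Finite.of_equiv _ e.symm.toEquiv
    · rw [PadicInt.maximalIdeal_eq_span_p]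
      exact Ideal.mem_span_singleton_self _
    · rw [mem_nonZeroDivisors_iff_ne_zero]
      exact_mod_cast (Fact.out : p.Prime).ne_zero
  · intro K _ S hS hN A _ _ _ _ hA hfin hp n ρ hρ hT
    refine ⟨fun h => Pool.Agent.L5helper61.WF.main_one (p := p) K hS hN A hA hfin hp n ρ hρ hT h,
      ⟨fun h => ⟨fun Q hQ hpQ => ⟨Q, hQ.1.1, le_rfl, hpQ, ?_⟩, ?_⟩, ?_⟩⟩
    · refine (h.image (Matrix.GeneralLinearGroup.map (n := Fin n) (Ideal.Quotient.mk Q))).subset ?_
      rintro _ ⟨g, rfl⟩
      exact ⟨ρ g, ⟨g, rfl⟩, rfl⟩
    · intro Q hQ hpQ P _ _ _ _ g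
      have h2 : Finite ρ.range := Set.finite_coe_iff.2 h
      refine ⟨Nat.card ρ.range, Nat.card_pos.ne', ?_⟩
      have h3 : (⟨ρ g, g, rfl⟩ : ρ.range) ^ Nat.card ρ.range = 1 := pow_card_eq_one'
      have h4 : ρ g ^ Nat.card ρ.range = 1 := congrArg Subtype.val h3
      rw [← map_pow]
      show Matrix.GeneralLinearGroup.map (Ideal.Quotient.mk P) (ρ (g ^ Nat.card ρ.range)) = 1
      rw [map_pow, h4, map_one]
    · rintro ⟨h1, h2⟩
      refine Pool.Agent.L5helper61.WF.main_fin (p := p) K hS hN A hA hfin hp n ρ hρ hT h1 ?_
      intro Q hQ hpQ P hP hQP g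
      obtain ⟨N, hN, h3⟩ := h2 Q hQ hpQ P hP.1 hP.2.1 hP.2.2 hQP g
      refine ⟨N, hN, ?_⟩
      have h4 : g ^ N ∈ Pool.Agent.L5helper66.TF.KI ρ P := by
        show modulo P ρ (g ^ N) = 1
        rw [map_pow, h3]
      exact Pool.Agent.L5helper66.TF.mem_KI.1 h4

end Pool.Agent.Results.MP_924d78_nt.OnePointPerComponent
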