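import Pool.Agent.Results.MP_924d78_nt.AllDimensions
import Pool.Agent.R338.CU.Cnt
import Pool.Agent.L5helper3.RA.Count

/-!
# Tame representations of all dimensions, for 98 percent of the triples of primes

`p = 3`. The starting result `AllDimensions` needs conditions on the cubic residue symbols between
the primes of `T`: there are no nonzero nilpotent matrices with certain commutation relations. We
show that they hold, in all dimensions at once, for all but `8/729` of the triples, for at least
`68` percent of the quadruples, and for a positive proportion of the `r`-tuples of primes congruent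
to `4` or `7` modulo `9`, taken from arbitrary sets. For `r ≥ 4` the Galois group of the maximal
`3`-extension of `ℚ` unramified outside `T` is infinite (Golod and Shafarevich).

If for every set of three indices some sum `β a c + β b c` is not zero or some entry is zero, and
every larger set of indices contains one whose row has at most one nonzero entry in the set, then
there are no such matrices. For four indices the exceptional matrices are counted by rows.
-/

set_option autoImplicit false

open NumberField Matrix IsLocalRing Finset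
open scoped Classical

namespace Pool.Agent.Results.MP_924d78_nt.RandomAllDimensions

/-- `ρ` is unramified at all primes that do not lie above a prime number in `S`. -/
def UnramifiedOutside {n : ℕ} {A : Type} [CommRing A] (S : Finset ℕ)
    (ρ : Gal(AlgebraicClosure ℚ/ℚ) →* GL (Fin n) A) : Prop :=
  ∀ P : Ideal (𝓞 (AlgebraicClosure ℚ)), P.IsMaximal →
    (∀ l ∈ S, (l : 𝓞 (AlgebraicClosure ℚ)) ∉ P) →
      ∀ τ : Gal(AlgebraicClosure ℚ/ℚ), (∀ x : 𝓞 (AlgebraicClosure ℚ), τ • x - x ∈ P) → ρ τ = 1

/-- The inertia groups at the primes which lie above a prime number in `S` act trivially modulo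
`3`. -/
def InertiaTrivialModThree {n : ℕ} {A : Type} [CommRing A] (S : Finset ℕ)
    (ρ : Gal(AlgebraicClosure ℚ/ℚ) →* GL (Fin n) A) : Prop :=
  ∀ P : Ideal (𝓞 (AlgebraicClosure ℚ)), P.IsMaximal →
    (∃ l ∈ S, (l : 𝓞 (AlgebraicClosure ℚ)) ∈ P) →
    ∀ τ : Gal(AlgebraicClosure ℚ/ℚ), (∀ x : 𝓞 (AlgebraicClosure ℚ), τ • x - x ∈ P) →
      ∀ i j, (3 : A) ∣ ((ρ τ : Matrix (Fin n) (Fin n) A) - 1) i j

/-- For all finite sets `S'` of primes congruent to `2` modulo `3`, all `n`, and all Noetherian
local rings `A` of residue characteristic `3` with the adic topology, every continuous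
`ρ : Gal(ℚbar/ℚ) → GL_n(A)`, unramified outside `T ∪ S'` and trivial modulo `3` on the inertia
groups, has finite image, and is trivial if `9 a = 0` implies `3 a = 0` in `A`. -/
def AlwaysFinite (T : Finset ℕ) : Prop :=
  ∀ S' : Finset ℕ, (∀ l ∈ S', l.Prime ∧ l % 3 = 2) →
  ∀ (n : ℕ) (A : Type) [CommRing A] [IsLocalRing A] [IsNoetherianRing A] [TopologicalSpace A],
    IsAdic (maximalIdeal A) → (3 : A) ∈ maximalIdeal A →
  ∀ ρ : Gal(AlgebraicClosure ℚ/ℚ) →* GL (Fin n) A, Continuous ρ → UnramifiedOutside (T ∪ S') ρ →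
    InertiaTrivialModThree (T ∪ S') ρ →
    (Set.range ρ).Finite ∧ ((∀ a : A, 9 * a = 0 → 3 * a = 0) → ∀ g, ρ g = 1)

/-- `P 0, …, P (r - 1)` are pairwise disjoint sets of primes congruent to `4` or `7` modulo `9`, the
members of `P i` are at most `X i`, and `1 ≤ z ≤ X i`. -/
def Sets (r : ℕ) (P : Fin r → Finset ℕ) (X : Fin r → ℕ) (z : ℕ) : Prop :=
  1 ≤ z ∧ (∀ i, z ≤ X i) ∧
    (∀ i, ∀ p ∈ P i, p.Prime ∧ (p % 9 = 4 ∨ p % 9 = 7) ∧ p ≤ X i) ∧
    ∀ i l, i ≠ l → Disjoint (P i) (P l)

/-- The number of the tuples `(p_0, …, p_{r-1})`, `p_i ∈ P i`, such that `AlwaysFinite` holds for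
`{p_0, …, p_{r-1}}`. -/
noncomputable def count {r : ℕ} (P : Fin r → Finset ℕ) : ℝ :=
  ({p : Fin r → ℕ | (∀ i, p i ∈ P i) ∧ AlwaysFinite (univ.image p)}.ncard : ℝ)

/-- Over no field of characteristic `3`, and in no dimension, are there nonzero nilpotent matrices
`M l`, `l ∈ J`, such that the commutator of `∑ j ∈ J, β l j • M j` and `M l` is `M l` for all
`l ∈ J`. -/
def NoTuple {r : ℕ} (β : Fin r → Fin r → ZMod 3) (J : Finset (Fin r)) : Prop :=
  ∀ (n : ℕ) (K : Type) [Field K] [Algebra (ZMod 3) K] (M : Fin r → Matrix (Fin n) (Fin n) K),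
    (∀ l ∈ J, IsNilpotent (M l) ∧ M l ≠ 0) →
    (∀ l ∈ J, (∑ j ∈ J, β l j • M j) * M l - M l * (∑ j ∈ J, β l j • M j) = M l) → False

/-- The share of the `r × r` matrices `β` over `ℤ/3` such that `NoTuple` holds for all nonempty sets
of indices, among the matrices with zero diagonal. -/
noncomputable def share (r : ℕ) : ℝ :=
  ({β : Fin r → Fin r → ZMod 3 | (∀ i, β i i = 0) ∧
    ∀ J : Finset (Fin r), J.Nonempty → NoTuple β J}.ncard : ℝ) / 3 ^ (r * (r - 1))

section crit

open Pool.Agent.R338.CU (Tup chi chi_apply chi_ne mem_prs)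
open Pool.Agent.Y703.CX (lam)
open Pool.Agent.Results.MP_924d78_nt.AllDimensions (linking level)
open Pool.Agent.L5helper3.RA (Good)

/-- the class of a prime -/
noncomputable def lev (l : ℕ) : ZMod 3 := (((l - 1) / 3 : ℕ) : ZMod 3)

theorem lev_ne {l : ℕ} (h : l % 9 = 4 ∨ l % 9 = 7) : lev l ≠ 0 := by
  unfold lev
  rw [Ne, ZMod.natCast_eq_zero_iff]
  omega

theorem linking_lam {r : ℕ} {p : Fin r → ℕ} (hp : Tup p) {i j : Fin r} (hij : i ≠ j) :
    linking chi (p i) (p j) = lam (p j) (p i) := by
  have hne : p i ≠ p j := fun h => hij (hp.inj h)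
  have h : Nat.Coprime (p i) (p j) := (Nat.coprime_primes (hp.pr i) (hp.pr j)).2 hne
  unfold AllDimensions.linking
  rw [dif_pos h, chi_apply (hp.pr j) (hp.m3 j) _ (ZMod.coe_unitOfCoprime _ h)]

theorem linking_self {r : ℕ} {p : Fin r → ℕ} (hp : Tup p) (i : Fin r) :
    linking chi (p i) (p i) = 0 := by
  unfold AllDimensions.linking
  rw [dif_neg]
  rw [Nat.coprime_self]
  exact (hp.pr i).ne_one

/-- the normalised matrix of a family of symbols -/
noncomputable def phi {r : ℕ} (u : Fin r → ZMod 3)
    (α : Pool.Agent.Y703.CX.prs (univ : Finset (Fin r)) → ZMod 3) : Fin r → Fin r → ZMod 3 :=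
  fun l j => if h : l ≠ j then (u l)⁻¹ * α ⟨(j, l), mem_prs h⟩ else 0

theorem crit {r : ℕ} {p : Fin r → ℕ} (hp : Tup p) (h9 : ∀ i, p i % 9 = 4 ∨ p i % 9 = 7)
    (h : Good (phi (fun i => lev (p i)) fun e => lam (p e.1.1) (p e.1.2))) :
    AlwaysFinite (univ.image p) := by
  intro S' hS' n A _ _ _ _ hA h3 ρ hρ hur hI
  have i3 : Fact (Nat.Prime 3) := ⟨Nat.prime_three⟩
  have hmem : ∀ l ∈ univ.image p, ∃ i, p i = l := by
    intro l hl
    obtain ⟨i, -, rfl⟩ := mem_image.1 hl
    exact ⟨i, rfl⟩
  have key := Pool.Agent.Results.MP_924d78_nt.AllDimensions.result 3 1 n (by norm_num)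
    (univ.image p ∪ S') ?_ chi ?_ ?_ A hA (by exact_mod_cast h3) ρ hρ
    (fun P hP hS τ hτ => hur P hP hS τ hτ) ?_
  · refine ⟨key.1, fun h0 g => key.2 (fun a ha => ?_) g⟩
    have h1 := h0 a (by
      norm_num at ha
      exact ha)
    norm_num
    exact h1
  · intro l hl
    rcases mem_union.1 hl with hl | hl
    · obtain ⟨i, rfl⟩ := hmem l hl
      have h2 := (hp.pr i).two_le
      refine ⟨hp.pr i, ?_, ?_⟩
      · intro h3
        have := hp.m3 i
        omega
      · intro hd
        have := h9 i
        norm_num at hd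
        omega
    · have h2 := hS' l hl
      have h4 := h2.1.two_le
      refine ⟨h2.1, ?_, ?_⟩
      · intro h3
        omega
      · intro hd
        norm_num at hd
        omega
  · intro l hl hd
    rcases mem_union.1 hl with hl | hl
    · obtain ⟨i, rfl⟩ := hmem l hl
      exact chi_ne (hp.pr i) (hp.m3 i)
    · exfalso
      have h2 := hS' l hl
      have h4 := h2.1.two_le
      omega
  · intro J hJ hJ3 hcard _ K iK iA M hM hrel
    -- the set of indices
    obtain ⟨J', hJ'⟩ : ∃ J' : Finset (Fin r), J' = univ.filter fun i => p i ∈ J := ⟨_, rfl⟩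
    have hJp : J = J'.image p := by
      ext l
      rw [mem_image]
      constructor
      · intro hl
        rcases mem_union.1 (hJ hl) with h1 | h1
        · obtain ⟨i, rfl⟩ := hmem l h1
          exact ⟨i, by rw [hJ']; exact mem_filter.2 ⟨mem_univ _, hl⟩, rfl⟩
        · exfalso
          have h2 := hS' l h1
          have h4 := h2.1.two_le
          have h5 := hJ3 l hl
          norm_num at h5
          omega
      · rintro ⟨i, hi, rfl⟩
        rw [hJ'] at hi
        exact (mem_filter.1 hi).2
    have hne : J'.Nonempty := by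
      rw [nonempty_iff_ne_empty]
      rintro h0
      rw [h0, image_empty] at hJp
      rw [hJp, card_empty] at hcard
      omega
    refine h J' hne n K (fun i => M (p i)) (fun i hi => hM (p i) ?_) fun i hi => ?_
    · rw [hJp]
      exact mem_image_of_mem _ hi
    · have h1 := hrel (p i) (by rw [hJp]; exact mem_image_of_mem _ hi)
      rw [hJp, sum_image fun x _ y _ hxy => hp.inj hxy] at h1
      have hlv : level 3 1 (p i) = lev (p i) := by
        unfold AllDimensions.level lev
        rw [pow_one]
      rw [hlv] at h1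
      have hu := lev_ne (h9 i)
      have h2 : (∑ j ∈ J', phi (fun i => lev (p i)) (fun e => lam (p e.1.1) (p e.1.2)) i j •
          M (p j)) = (lev (p i))⁻¹ • ∑ j ∈ J', linking chi (p i) (p j) • M (p j) := by
        rw [smul_sum]
        refine sum_congr rfl fun j _ => ?_
        rw [smul_smul]
        congr 1
        unfold phi
        by_cases hij : i = j
        · rw [dif_neg (by simp [hij]), ← hij, linking_self hp, mul_zero]
        · rw [dif_pos hij, linking_lam hp hij]
      rw [h2, smul_mul_assoc, mul_smul_comm, ← smul_sub, h1, smul_smul, inv_mul_cancel₀ hu,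
        one_smul]
  · intro P hP hS τ hτ i j
    have h1 := hI P hP hS τ hτ i j
    rw [pow_one]
    exact_mod_cast h1

theorem share_phi {r : ℕ} (u : Fin r → ZMod 3) (hu : ∀ i, u i ≠ 0) :
    share r = ((univ.filter fun α => Good (phi u α)).card : ℝ) / 3 ^ (r * (r - 1)) := by
  unfold share
  congr 2
  have i3 : Fact (Nat.Prime 3) := ⟨Nat.prime_three⟩
  have hinj : Function.Injective fun α => phi u α := by
    intro α β h
    funext ⟨⟨a, b⟩, hab⟩
    have hne : b ≠ a := by
      intro e
      unfold Pool.Agent.Y703.CX.prs at hab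
      simp only [mem_filter, mem_univ, true_and] at hab
      exact hab e
    have h1 := congrFun (congrFun h b) a
    simp only [phi, dif_pos hne] at h1
    exact mul_left_cancel₀ (inv_ne_zero (hu b)) h1
  rw [← Set.ncard_coe_finset, ← Set.ncard_image_of_injective _ hinj]
  congr 1
  ext β
  simp only [Set.mem_ofPred_eq, Set.mem_image, coe_filter, mem_univ, true_and]
  constructor
  · rintro ⟨h1, h2⟩
    have h3 : phi u (fun e : Pool.Agent.Y703.CX.prs (univ : Finset (Fin r)) =>
        u e.1.2 * β e.1.2 e.1.1) = β := by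
      funext a b
      unfold phi
      by_cases hab : a = b
      · rw [dif_neg (by simp [hab]), hab, h1]
      · rw [dif_pos hab]
        show (u a)⁻¹ * (u a * β a b) = β a b
        rw [← mul_assoc, inv_mul_cancel₀ (hu a), one_mul]
    refine ⟨_, ?_, h3⟩
    rw [h3]
    exact h2
  · rintro ⟨α, h1, rfl⟩
    refine ⟨fun i => ?_, h1⟩
    unfold phi
    rw [dif_neg (by simp)]

end crit

/-- **Tame representations of all dimensions have finite image for most small sets of primes.**
There is a constant `C` such that, for all `r` and all disjoint sets `P i` of primes as in `Sets`,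
`AlwaysFinite` holds for at least `share r ∏ #P i - C 3 ^ (r ^ 2) z ^ (-1/12) ∏ X i` of the tuples in
`P 0 × ... × P (r - 1)`. The share is at least `721/729` for triples, more than `0.687` for
quadruples, and positive for all `r`. -/
theorem result :
    (∃ C : ℝ, ∀ (r : ℕ) (P : Fin r → Finset ℕ) (X : Fin r → ℕ) (z : ℕ), Sets r P X z →
      share r * ∏ i, ((P i).card : ℝ) -
        C * 3 ^ (r ^ 2) * (z : ℝ) ^ (-(1 / 12 : ℝ)) * ∏ i, (X i : ℝ) ≤ count P) ∧
    721 / 729 ≤ share 3 ∧ 365393 / 531441 ≤ share 4 ∧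
    ∀ r, ((3 : ℝ) ^ (r * (r - 1) / 2))⁻¹ ≤ share r := by
  refine ⟨?_, Pool.Agent.L5helper3.RA.share_three, Pool.Agent.L5helper3.RA.share_four,
    Pool.Agent.L5helper3.RA.share_pos⟩
  obtain ⟨C, hC1, hC⟩ := Pool.Agent.R338.CU.cls_lower
  have i3 : Fact (Nat.Prime 3) := ⟨Nat.prime_three⟩
  refine ⟨C, fun r P X z hS => ?_⟩
  have toS : Pool.Agent.R338.CU.Sets P X z :=
    ⟨hS.1, hS.2.1, fun i p hp => ⟨(hS.2.2.1 i p hp).1, by
      have := (hS.2.2.1 i p hp).2.1
      omega, (hS.2.2.1 i p hp).2.2⟩, hS.2.2.2⟩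
  have cnt : count P =
      (((Fintype.piFinset P).filter fun p => AlwaysFinite (univ.image p)).card : ℝ) := by
    unfold count
    rw [← Set.ncard_coe_finset]
    congr 2
    ext p
    simp
  rw [cnt]
  have h1 := hC r P X z toS (ZMod 3) lev
    (fun u α => Pool.Agent.L5helper3.RA.Good (phi u α)) (share r) (fun u hu => by
      rw [share_phi u fun i => ?_]
      obtain ⟨p, hp, hpu⟩ := hu i
      rw [← hpu]
      exact lev_ne (hS.2.2.1 i p hp).2.1)
    (fun p => AlwaysFinite (univ.image p))
    (fun p hp hQ => crit (toS.tup hp)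
      (fun i => (hS.2.2.1 i _ (Fintype.mem_piFinset.1 hp i)).2.1) hQ)
  refine le_trans (le_of_eq ?_) h1
  rw [ZMod.card]
  have e1 : (3 : ℝ) ^ (r ^ 2) = ((3 : ℕ) : ℝ) ^ r * 3 ^ (r * (r - 1)) := by
    push_cast
    rw [← pow_add]
    congr 1
    rcases r with _ | r
    · rfl
    · rw [Nat.add_sub_cancel]
      ring
  rw [e1]
  ring

end Pool.Agent.Results.MP_924d78_nt.RandomAllDimensions
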