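import Pool.Agent.L5helper61.WF.All
import Pool.Agent.L5helper79.TR.Pot
import Pool.Agent.L5helper79.TR.Main2

/-!
# Tame representations: reduction to totally odd symplectic representations of totally real fields,
semistable over `ℤ_p` and unramified over `𝔽_p[[t]]`

Question Q1 asks whether all continuous representations of `G_K` over complete Noetherian local rings
`A` with finite residue field of characteristic `p`, tamely ramified at a finite set `S` of primes and
unramified outside `S`, have finite image, for all number fields `K`.  We show that it is enough to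
consider the following two cases.

* `A = ℤ_p`; the number field `F` is totally real and Galois over `ℚ`; the finite set `S` contains no
  prime above `p`; `ρ : G_F → Sp_{2m}(ℤ_p)` is unipotent on all inertia groups and totally odd: all
  complex conjugations have trace zero.
* `A = 𝔽_p[[t]]`, the number field `F` is totally real and Galois over `ℚ`, and
  `ρ : G_F → Sp_{2m}(𝔽_p[[t]])` is totally odd and unramified at all finite primes.

More precisely, for every single Noetherian local ring `A` of characteristic `p` (not necessarily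
complete, a domain or with finite residue field) Q1 over `A` is equivalent to the second case over
`A`. So in characteristic `p` the question is the one about everywhere unramified representations. In
both cases we may prescribe that `K₀ F / F` is unramified at all finite primes and completely split at
the primes above `T`, for a given number field `K₀` (for instance `ℚ(i)`, so that `F(i)` is a CM field,
unramified over `F`) and a given finite set `T` of prime numbers (for instance `T = {p}`).

Proof.  Over a finite extension of `K` the image of `ρ` is a pro-`p` group. For a prime above `p`,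
every element of the inertia group has the same image as some element of the wild inertia group:
a limit of powers `τ^e` with `e ≡ 1` modulo a high power of `p` and `e ≡ 0` modulo many numbers prime
to `p`.  So `ρ` is unramified above `p`.  For a prime not above `p`, the image of inertia is
topologically cyclic, and a Frobenius element conjugates the image of `τ` to its `q`-th power; so
the eigenvalues of `ρ(τ)` are roots of unity congruent to one, and `ρ(τ)` is unipotent. In
characteristic `p` its order is bounded, hence the inertia groups have finite image; there are only finitely many of them up to conjugation, and an open subgroup meets all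
of them trivially.  Then we induce from `L F` to a suitable totally real field `F`, which is
the splitting field of a perturbation of the minimal polynomial of a generator of `L`, see
`Pool.Agent.L5helper79.TR.Field`. The reduction from all rings `A` to `ℤ_p` and `𝔽_p[[t]]` is the theorem
`TwoCoefficientRings`.
-/

set_option autoImplicit false

open NumberField IsLocalRing

attribute [-instance] DivisionRing.toRatAlgebra

namespace Pool.Agent.Results.MP_924d78_nt.TotallyRealFields

/-- the absolute Galois group of the field `F`, with the Krull topology -/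
abbrev AbsGal (F : Type) [Field F] : Type := Gal(AlgebraicClosure F/F)

/-- the ring of all algebraic integers -/
abbrev ZBar : Type := 𝓞 (AlgebraicClosure ℚ)

/-- `τ` lies in the inertia group at `P` -/
def Inertia (P : Ideal ZBar) (τ : AbsGal ℚ) : Prop := ∀ x : ZBar, τ • x - x ∈ P

/-- `τ` lies in the decomposition group at `P` -/
def Decomposition (P : Ideal ZBar) (τ : AbsGal ℚ) : Prop := ∀ x : ZBar, τ • x ∈ P ↔ x ∈ P

/-- For every `x ≠ 0` the quotient `(τ x - x) / x` lies in the maximal ideal of the localization of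
the ring of all algebraic integers at `P`: the elements of the inertia group at `P` with this
property form the wild inertia group. -/
def Wild (P : Ideal ZBar) (τ : AbsGal ℚ) : Prop :=
  ∀ x : ZBar, ∃ b : ZBar, b ∉ P ∧ ∃ y ∈ P, b * (τ • x - x) = y * x

/-- the prime of the number field `K` below `P` -/
noncomputable def below (K : IntermediateField ℚ (AlgebraicClosure ℚ)) (P : Ideal ZBar) :
    Ideal (𝓞 K) := P.comap (algebraMap (𝓞 K) ZBar)

/-- The homomorphism `f` from the absolute Galois group of `K` is unramified outside `S` and at most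
tamely ramified at `S`: it is trivial on the inertia groups at the primes which are not above `S`,
and on the wild inertia groups at the primes above `S`. -/
def Tame (K : IntermediateField ℚ (AlgebraicClosure ℚ)) (S : Set (Ideal (𝓞 K))) {E : Type}
    [Group E] (f : K.fixingSubgroup →* E) : Prop :=
  ∀ P : Ideal ZBar, P.IsMaximal → ∀ τ : K.fixingSubgroup, Inertia P τ →
    (below K P ∈ S → Wild P τ) → f τ = 1

/-- The homomorphism `f` from the absolute Galois group of `K` is unramified at all finite primes: it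
is trivial on all inertia groups. -/
def Unramified (K : IntermediateField ℚ (AlgebraicClosure ℚ)) {E : Type} [Group E]
    (f : K.fixingSubgroup →* E) : Prop :=
  ∀ P : Ideal ZBar, P.IsMaximal → ∀ τ : K.fixingSubgroup, Inertia P τ → f τ = 1

/-- Q1 for the coefficient ring `A` (with its adic topology): for all number fields `K`, all finite
sets `S` of primes of `K` and all `n`, every continuous homomorphism from the absolute Galois group
of `K` to `GL_n(A)`, unramified outside `S` and at most tamely ramified at `S`, has finite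
image. -/
def FiniteOver (A : Type) [CommRing A] [IsLocalRing A] : Prop :=
  ∀ _ : TopologicalSpace A, IsAdic (maximalIdeal A) →
    ∀ (K : IntermediateField ℚ (AlgebraicClosure ℚ)), FiniteDimensional ℚ K →
    ∀ S : Set (Ideal (𝓞 K)), S.Finite → ∀ (n : ℕ) (ρ : K.fixingSubgroup →* GL (Fin n) A),
      Continuous ρ → Tame K S ρ → (Set.range ρ).Finite

/-- `c` is a complex conjugation, for some embedding `ι` of the field of algebraic numbers -/
def ComplexConjugation (c : AbsGal ℚ) : Prop :=
  ∃ ι : AlgebraicClosure ℚ →+* ℂ, ∀ x, ι (c x) = starRingEnd ℂ (ι x)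

/-- `ρ` is totally odd: all complex conjugations have trace zero. -/
def TotallyOdd {A : Type} [CommRing A] {m : ℕ} (F : IntermediateField ℚ (AlgebraicClosure ℚ))
    (ρ : F.fixingSubgroup →* Matrix.symplecticGroup (Fin m) A) : Prop :=
  ∀ c : F.fixingSubgroup, ComplexConjugation c →
    Matrix.trace (ρ c : Matrix (Fin m ⊕ Fin m) (Fin m ⊕ Fin m) A) = 0

/-- `F` is a totally real number field, Galois over `ℚ`, such that `K₀ F / F` is unramified at all
finite primes and completely split at all primes above `T`: the inertia groups of `F`, and its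
decomposition groups above the primes in `T`, fix `K₀`. -/
def Good (K₀ : IntermediateField ℚ (AlgebraicClosure ℚ)) (T : Finset ℕ)
    (F : IntermediateField ℚ (AlgebraicClosure ℚ)) : Prop :=
  FiniteDimensional ℚ F ∧ IsGalois ℚ F ∧ IsTotallyReal F ∧
    ∀ P : Ideal ZBar, P.IsMaximal → ∀ τ ∈ F.fixingSubgroup,
      (Inertia P τ ∨ (Decomposition P τ ∧ ∃ l ∈ T, (l : ZBar) ∈ P)) → τ ∈ K₀.fixingSubgroup

/-- For all good fields `F` and all finite sets `S` of primes of `F` not above `p`, every continuous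
totally odd representation `G_F → Sp_{2m}(ℤ_p)` which is unramified outside `S`, tame at `S` and
unipotent on all inertia groups, has finite image. -/
def SemistableCase (p : ℕ) [Fact p.Prime] (K₀ : IntermediateField ℚ (AlgebraicClosure ℚ))
    (T : Finset ℕ) : Prop :=
  ∀ F : IntermediateField ℚ (AlgebraicClosure ℚ), Good K₀ T F →
    ∀ S : Set (Ideal (𝓞 F)), S.Finite → (∀ q ∈ S, (p : 𝓞 F) ∉ q) →
    ∀ (m : ℕ) (ρ : F.fixingSubgroup →* Matrix.symplecticGroup (Fin m) ℤ_[p]), Continuous ρ →
      Tame F S ρ →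
      (∀ P : Ideal ZBar, P.IsMaximal → ∀ τ : F.fixingSubgroup, Inertia P τ →
        IsNilpotent ((ρ τ : Matrix (Fin m ⊕ Fin m) (Fin m ⊕ Fin m) ℤ_[p]) - 1)) →
      TotallyOdd F ρ → (Set.range ρ).Finite

/-- For all good fields `F`, every continuous totally odd representation `G_F → Sp_{2m}(A)` which is
unramified at all finite primes has finite image. -/
def UnramifiedCase (A : Type) [CommRing A] [IsLocalRing A]
    (K₀ : IntermediateField ℚ (AlgebraicClosure ℚ)) (T : Finset ℕ) : Prop :=
  ∀ _ : TopologicalSpace A, IsAdic (maximalIdeal A) →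
    ∀ F : IntermediateField ℚ (AlgebraicClosure ℚ), Good K₀ T F →
    ∀ (m : ℕ) (ρ : F.fixingSubgroup →* Matrix.symplecticGroup (Fin m) A),
      Continuous ρ → Unramified F ρ → TotallyOdd F ρ → (Set.range ρ).Finite

lemma finite_symp {A G : Type} [CommRing A] [Group G] {m n : ℕ} (e : Fin m ⊕ Fin m ≃ Fin n)
    (ρ : G →* Matrix.symplecticGroup (Fin m) A) (σ : G →* GL (Fin n) A)
    (hσ : ∀ g, (σ g).val = ((ρ g : Matrix.symplecticGroup (Fin m) A) :
      Matrix (Fin m ⊕ Fin m) (Fin m ⊕ Fin m) A).submatrix e.symm e.symm)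
    (h : (Set.range σ).Finite) : (Set.range ρ).Finite := by
  let F : GL (Fin n) A → Matrix (Fin m ⊕ Fin m) (Fin m ⊕ Fin m) A := fun M =>
    M.val.submatrix e e
  have h1 : (Set.range fun g => ((ρ g : Matrix.symplecticGroup (Fin m) A) :
      Matrix (Fin m ⊕ Fin m) (Fin m ⊕ Fin m) A)).Finite := by
    refine (h.image F).subset ?_
    rintro _ ⟨g, rfl⟩
    refine ⟨σ g, ⟨g, rfl⟩, ?_⟩
    change (σ g).val.submatrix e e = _
    rw [hσ, Matrix.submatrix_submatrix]
    simp
  refine Set.Finite.of_finite_image (f := fun M : Matrix.symplecticGroup (Fin m) A =>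
    (M : Matrix (Fin m ⊕ Fin m) (Fin m ⊕ Fin m) A)) ?_ (fun a _ b _ hab => Subtype.ext hab)
  rw [← Set.range_comp]
  exact h1

/-- from `Sp_{2m}` to `GL_{2m}` -/
lemma finite_of_gl {A : Type} [CommRing A] [IsLocalRing A] (h : FiniteOver A)
    [TopologicalSpace A] (hA : IsAdic (maximalIdeal A))
    (F : IntermediateField ℚ (AlgebraicClosure ℚ)) (hF : FiniteDimensional ℚ F)
    (S : Set (Ideal (𝓞 F))) (hS : S.Finite) {m : ℕ}
    (ρ : F.fixingSubgroup →* Matrix.symplecticGroup (Fin m) A) (hρ : Continuous ρ)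
    (hT : Tame F S ρ) : (Set.range ρ).Finite := by
  obtain ⟨σ, hσ, hval⟩ := Pool.Agent.L5helper79.TR.exists_toGL
    (finSumFinEquiv : Fin m ⊕ Fin m ≃ Fin (m + m))
    ((Matrix.symplecticGroup (Fin m) A).subtype.comp ρ) (continuous_subtype_val.comp hρ)
  refine finite_symp finSumFinEquiv ρ σ hval (h _ hA F hF S hS (m + m) σ hσ ?_)
  intro P hP τ hτ hw
  apply Units.ext
  rw [hval]
  change ((ρ τ : Matrix.symplecticGroup (Fin m) A) :
    Matrix (Fin m ⊕ Fin m) (Fin m ⊕ Fin m) A).submatrix _ _ = 1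
  rw [hT P hP τ hτ hw]
  change (1 : Matrix (Fin m ⊕ Fin m) (Fin m ⊕ Fin m) A).submatrix _ _ = 1
  exact Matrix.submatrix_one_equiv _

/-- conjugation of primes by elements of `G_F` -/
lemma conj_data {F : IntermediateField ℚ (AlgebraicClosure ℚ)} {P : Ideal ZBar}
    (hP : P.IsMaximal) (g : AbsGal ℚ) (hg : g ∈ F.fixingSubgroup) {τ : AbsGal ℚ}
    (h : Inertia P τ) :
    ∃ P' : Ideal ZBar, P'.IsMaximal ∧ Inertia P' (g⁻¹ * τ * g) ∧ below F P' = below F P ∧
      (Wild P τ → Wild P' (g⁻¹ * τ * g)) := by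
  let e : ZBar ≃+* ZBar := MulSemiringAction.toRingEquiv (AbsGal ℚ) ZBar g
  refine ⟨P.comap (e : ZBar →+* ZBar), Ideal.comap_isMaximal_of_equiv e, ?_, ?_, ?_⟩
  · intro x
    rw [Ideal.mem_comap]
    change g • ((g⁻¹ * τ * g) • x - x) ∈ P
    have h1 : g • ((g⁻¹ * τ * g) • x - x) = τ • (g • x) - g • x := by
      rw [smul_sub, ← mul_smul, ← mul_smul]
      congr 2
      group
    rw [h1]
    exact h _
  · ext x
    rw [below, below, Ideal.mem_comap, Ideal.mem_comap, Ideal.mem_comap]
    change g • (algebraMap (𝓞 F) ZBar x) ∈ P ↔ _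
    have h1 : g • (algebraMap (𝓞 F) ZBar x) = algebraMap (𝓞 F) ZBar x := by
      apply RingOfIntegers.ext
      exact (IntermediateField.mem_fixingSubgroup_iff F g).1 hg _ (x : F).2
    rw [h1]
  · intro hw x
    obtain ⟨b, hb, y, hy, hby⟩ := hw (g • x)
    refine ⟨g⁻¹ • b, ?_, g⁻¹ • y, ?_, ?_⟩
    · rw [Ideal.mem_comap]
      change g • g⁻¹ • b ∉ P
      rwa [smul_inv_smul]
    · rw [Ideal.mem_comap]
      change g • g⁻¹ • y ∈ P
      rwa [smul_inv_smul]
    · have h1 : g⁻¹ • (b * (τ • g • x - g • x)) = g⁻¹ • (y * (g • x)) := congrArg _ hby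
      rw [smul_mul', smul_mul', inv_smul_smul, smul_sub, inv_smul_smul] at h1
      rw [← h1, mul_smul, mul_smul]

lemma good_of (K₀ F : IntermediateField ℚ (AlgebraicClosure ℚ)) (T : Finset ℕ)
    (hfin : FiniteDimensional ℚ F) (hgal : IsGalois ℚ F) (hreal : IsTotallyReal F)
    (hF : ∀ (P : Ideal ZBar), P.IsPrime → ∀ τ : AbsGal ℚ,
        (Pool.Agent.L5helper79.TR.Inertia P τ ∨
          (Pool.Agent.L5helper79.TR.Decomp P τ ∧ ((∏ l ∈ T, l : ℕ) : ZBar) ∈ P)) →
        τ ∈ F.fixingSubgroup → τ ∈ K₀.fixingSubgroup) : Good K₀ T F := by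
  refine ⟨hfin, hgal, hreal, ?_⟩
  intro P hP τ hτ h
  refine hF P hP.isPrime τ ?_ hτ
  rcases h with h | ⟨h1, l, hl, hlP⟩
  · exact Or.inl h
  · refine Or.inr ⟨h1, ?_⟩
    obtain ⟨u, hu⟩ := Finset.dvd_prod_of_mem (fun l => l) hl
    have hu' : ∏ l ∈ T, l = l * u := hu
    rw [hu']
    push_cast
    exact P.mul_mem_right _ hlP

lemma semistable_imp (p : ℕ) [Fact p.Prime] (K₀ : IntermediateField ℚ (AlgebraicClosure ℚ))
    [FiniteDimensional ℚ K₀] (T : Finset ℕ) (hT : ∀ l ∈ T, l.Prime)
    (h : SemistableCase p K₀ T) : FiniteOver ℤ_[p] := by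
  intro top hA K hK S hS n ρ hρ hTame
  have htop := Eq.trans hA (Pool.Agent.L5helper61.WF.isAdic_zp p).symm
  subst htop
  have ht : ∏ l ∈ T, l ≠ 0 := Finset.prod_ne_zero_iff.2 fun l hl => (hT l hl).ne_zero
  obtain ⟨K', hK', hle, hprop⟩ := Pool.Agent.L5helper79.TR.char0_main K ρ hA hρ hTame
  obtain ⟨F, hfin, hgal, hreal, hF, hred⟩ :=
    Pool.Agent.L5helper79.TR.reduction2 K' K₀ (∏ l ∈ T, l) ht
  obtain ⟨m, ρ', hcont, htr, _, hf, hT', hunip⟩ := hred ℤ_[p] n
    (ρ.comp (Subgroup.inclusion hle))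
    (hρ.comp (Pool.Agent.L5helper79.TR.continuous_incl K K' hle))
  refine Pool.Agent.L5helper79.TR.finite_of_ext K K' hle ρ (hf ?_)
  have hgood := good_of K₀ F T hfin hgal hreal hF
  obtain ⟨S', hS'⟩ : ∃ S' : Set (Ideal (𝓞 F)), S' = {q | ∃ P : Ideal ZBar, P.IsMaximal ∧
    below K P ∈ S ∧ (p : ZBar) ∉ P ∧ q = below F P} := ⟨_, rfl⟩
  refine h F hgood S' ?_ ?_ m ρ' hcont ?_ ?_ htr
  · refine (Pool.Agent.L5helper66.TF.over_finite K hS F hfin).subset ?_
    rw [hS']
    rintro q ⟨P, h1, h2, _, h4⟩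
    exact ⟨P, h1, h2, h4⟩
  · rw [hS']
    rintro q ⟨P, h1, h2, h3, rfl⟩ hpq
    rw [below, Ideal.mem_comap, map_natCast] at hpq
    exact h3 hpq
  · intro P hP τ hτ hw
    refine hT' {σ | ∃ Q : Ideal ZBar, Q.IsMaximal ∧ Inertia Q σ ∧ (below F Q ∈ S' → Wild Q σ)}
      ?_ ?_ ?_ τ ⟨P, hP, hτ, hw⟩
    · rintro σ ⟨Q, hQ, hσ, _⟩
      exact ⟨Q, hQ.isPrime, hσ⟩
    · rintro g hg σ ⟨Q, hQ, hσ, hwσ⟩
      obtain ⟨Q', hQ', h1, h2, h3⟩ := conj_data hQ g hg hσ
      exact ⟨Q', hQ', h1, fun h4 => h3 (hwσ (by rwa [h2] at h4))⟩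
    · rintro σ ⟨Q, hQ, hσ, hwσ⟩
      by_cases hpQ : (p : ZBar) ∈ Q
      · exact (hprop Q hQ σ hσ).1 hpQ
      · refine hTame Q hQ (Subgroup.inclusion hle σ) hσ fun h1 => ?_
        refine hwσ ?_
        rw [hS']
        exact ⟨Q, hQ, h1, hpQ, rfl⟩
  · intro P hP τ hτ
    refine hunip ?_ τ ⟨P, hP, hτ⟩
    rintro σ ⟨Q, hQ, hσ⟩
    exact (hprop Q hQ σ hσ).2

lemma unramified_imp (p : ℕ) [Fact p.Prime] (K₀ : IntermediateField ℚ (AlgebraicClosure ℚ))
    [FiniteDimensional ℚ K₀] (T : Finset ℕ) (hT : ∀ l ∈ T, l.Prime)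
    (A : Type) [CommRing A] [IsLocalRing A] [IsNoetherianRing A] (hp0 : (p : A) = 0)
    (h : UnramifiedCase A K₀ T) : FiniteOver A := by
  intro top hA K hK S hS n ρ hρ hTame
  have ht : ∏ l ∈ T, l ≠ 0 := Finset.prod_ne_zero_iff.2 fun l hl => (hT l hl).ne_zero
  obtain ⟨K', hK', hle, hprop⟩ :=
    Pool.Agent.L5helper79.TR.charp_main K hS ρ hA hρ hp0 hTame
  obtain ⟨F, hfin, hgal, hreal, hF, hred⟩ :=
    Pool.Agent.L5helper79.TR.reduction2 K' K₀ (∏ l ∈ T, l) ht
  obtain ⟨m, ρ', hcont, htr, _, hf, hT', _⟩ := hred A n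
    (ρ.comp (Subgroup.inclusion hle))
    (hρ.comp (Pool.Agent.L5helper79.TR.continuous_incl K K' hle))
  refine Pool.Agent.L5helper79.TR.finite_of_ext K K' hle ρ (hf ?_)
  refine h top hA F (good_of K₀ F T hfin hgal hreal hF) m ρ' hcont ?_ htr
  intro P hP τ hτ
  refine hT' {σ | ∃ Q : Ideal ZBar, Q.IsMaximal ∧ Inertia Q σ} ?_ ?_ ?_ τ ⟨P, hP, hτ⟩
  · rintro σ ⟨Q, hQ, hσ⟩
    exact ⟨Q, hQ.isPrime, hσ⟩
  · rintro g hg σ ⟨Q, hQ, hσ⟩
    exact Pool.Agent.L5helper79.TR.inertia_conj hQ g hσ
  · rintro σ ⟨Q, hQ, hσ⟩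
    exact hprop Q hQ σ hσ

open PowerSeries in
theorem result (p : ℕ) [Fact p.Prime] (K₀ : IntermediateField ℚ (AlgebraicClosure ℚ))
    [FiniteDimensional ℚ K₀] (T : Finset ℕ) (hT : ∀ l ∈ T, l.Prime) :
    ((∀ (A : Type) [CommRing A] [IsLocalRing A] [IsNoetherianRing A],
        IsAdicComplete (maximalIdeal A) A → Finite (ResidueField A) → (p : A) ∈ maximalIdeal A →
        FiniteOver A) ↔ SemistableCase p K₀ T ∧ UnramifiedCase (ZMod p)⟦X⟧ K₀ T) ∧
      (FiniteOver ℤ_[p] ↔ SemistableCase p K₀ T) ∧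
      ∀ (A : Type) [CommRing A] [IsLocalRing A] [IsNoetherianRing A], (p : A) = 0 →
        (FiniteOver A ↔ UnramifiedCase A K₀ T) := by
  have h1 : FiniteOver ℤ_[p] ↔ SemistableCase p K₀ T := by
    refine ⟨fun h F hF S hS _ m ρ hρ hTame _ _ => ?_, semistable_imp p K₀ T hT⟩
    exact finite_of_gl h (Pool.Agent.L5helper61.WF.isAdic_zp p) F hF.1 S hS ρ hρ hTame
  have h3 : ∀ (A : Type) [CommRing A] [IsLocalRing A] [IsNoetherianRing A], (p : A) = 0 →
      (FiniteOver A ↔ UnramifiedCase A K₀ T) := by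
    intro A _ _ _ hp0
    refine ⟨fun h top hA F hF m ρ hρ hU _ => ?_, unramified_imp p K₀ T hT A hp0⟩
    exact finite_of_gl h hA F hF.1 ∅ Set.finite_empty ρ hρ (fun P hP τ hτ _ => hU P hP τ hτ)
  have h0 : ((p : ℕ) : (ZMod p)⟦X⟧) = 0 := by
    rw [← map_natCast (PowerSeries.C (R := ZMod p)), CharP.cast_eq_zero, map_zero]
  have h2 : FiniteOver (ZMod p)⟦X⟧ ↔ UnramifiedCase (ZMod p)⟦X⟧ K₀ T := h3 _ h0
  refine ⟨⟨fun h => ⟨h1.1 ?_, h2.1 ?_⟩, fun h A _ _ _ hcomp hfin hp => ?_⟩, h1, h3⟩
  · refine h ℤ_[p] inferInstance ?_ ?_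
    · have e : ResidueField ℤ_[p] ≃+* ZMod p := PadicInt.residueField
      exact Finite.of_equiv _ e.symm.toEquiv
    · rw [PadicInt.maximalIdeal_eq_span_p]
      exact Ideal.mem_span_singleton_self _
  · have hπ : maximalIdeal (ZMod p)⟦X⟧ = Ideal.span {PowerSeries.X} := maximalIdeal_eq_span_X
    refine h (ZMod p)⟦X⟧ ?_ ?_ ?_
    · rw [hπ]
      infer_instance
    · exact Finite.of_equiv _ (PowerSeries.residueFieldOfPowerSeries (k := ZMod p)).symm.toEquiv
    · rw [h0]
      exact Ideal.zero_mem _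
  · exact Pool.Agent.L5helper66.TF.main_red (h1.2 h.1) (h2.2 h.2) A hfin hp

end Pool.Agent.Results.MP_924d78_nt.TotallyRealFields
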