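import Pool.Agent.L5helper66.TF.NF3

/-!
# Tame representations over arbitrary complete local rings: reduction to `ℤ_p` and `𝔽_p[[t]]`

Question Q1 asks whether all continuous representations of `G_K`, tamely ramified at a finite set `S`
of primes and unramified outside `S`, into `GL_n(A)` have finite image, for all number fields `K` and
all complete Noetherian local rings `A` with finite residue field of characteristic `p`.  We show
that Q1 for all these rings `A` is equivalent to Q1 for the two rings `ℤ_p` and `𝔽_p[[t]]`.

The theorem behind this is about a single representation `ρ` over an arbitrary `A` (reducible or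
not, of any characteristic, with nilpotent elements or not): assume that the finite extensions of
`K` have no `ℤ_p`-extensions which are tame at `S` and unramified outside `S` (class field theory).
If for every prime ideal `P` of `A` with `dim A/P = 1` every matrix `ρ(g)` has finite order modulo
`P`, then the image of `ρ` is finite.

Proof.  Let `I ⊆ A` be an ideal such that `ρ` is trivial modulo `I` on an open subgroup. Then the
same holds for `I²`, because `I/I²` is a finitely generated module, and so for all ideals with
the same radical as `I`.  Modulo `p`: the matrices `ρ(g)`, `g` in an open subgroup, are unipotent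
modulo all `P` with `dim A/P = 1` that contain `p`, hence unipotent modulo the radical of `p A`; by
Kolchin's theorem they generate a nilpotent algebra, and we descend along its powers.  So `ρ` is
trivial modulo `p²` on an open subgroup `U`; the elements of finite order of `1 + p² M_n(A/P)` are
trivial if `p ∉ P`, so `ρ(U)` is trivial modulo all these `P`.  The two statements together show that
`ρ` is trivial modulo the nilradical on an open subgroup.  Finally `A/P` is a finite free module
over `ℤ_p` or over `𝔽_p[[t]]`.  The theorem of Hermite and Minkowski for `G_K` is in the starting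
files (`Pool.Agent.Y800.HM`), as is Kolchin's theorem.
-/

set_option autoImplicit false

open NumberField IsLocalRing

attribute [-instance] DivisionRing.toRatAlgebra

namespace Pool.Agent.Results.MP_924d78_nt.TwoCoefficientRings

/-- the absolute Galois group of the field `F`, with the Krull topology -/
abbrev AbsGal (F : Type) [Field F] : Type := Gal(AlgebraicClosure F/F)

/-- the ring of all algebraic integers -/
abbrev ZBar : Type := 𝓞 (AlgebraicClosure ℚ)

/-- `τ` lies in the inertia group at `P` -/
def Inertia (P : Ideal ZBar) (τ : AbsGal ℚ) : Prop := ∀ x : ZBar, τ • x - x ∈ P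

/-- For every `x ≠ 0` the quotient `(τ x - x) / x` lies in the maximal ideal of the localization of
the ring of all algebraic integers at `P`: the elements of the inertia group at `P` with this
property form the wild inertia group. -/
def Wild (P : Ideal ZBar) (τ : AbsGal ℚ) : Prop :=
  ∀ x : ZBar, ∃ b : ZBar, b ∉ P ∧ ∃ y ∈ P, b * (τ • x - x) = y * x

/-- the prime of the number field `K` below `P` -/
noncomputable def below (K : IntermediateField ℚ (AlgebraicClosure ℚ)) (P : Ideal ZBar) :
    Ideal (𝓞 K) := P.comap (algebraMap (𝓞 K) ZBar)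

/-- The homomorphism `f` from the absolute Galois group of `K` is unramified outside `S` and at most
tamely ramified at `S`: it is trivial on the inertia groups at the primes which are not above `S`,
and on the wild inertia groups at the primes above `S`. -/
def Tame (K : IntermediateField ℚ (AlgebraicClosure ℚ)) (S : Set (Ideal (𝓞 K))) {E : Type}
    [Group E] (f : K.fixingSubgroup →* E) : Prop :=
  ∀ P : Ideal ZBar, P.IsMaximal → ∀ τ : K.fixingSubgroup, Inertia P τ →
    (below K P ∈ S → Wild P τ) → f τ = 1

/-- Q1 for the coefficient ring `A` (with its adic topology): for all number fields `K`, all finite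
sets `S` of primes of `K` and all `n`, every continuous homomorphism from the absolute Galois group
of `K` to `GL_n(A)`, unramified outside `S` and at most tamely ramified at `S`, has finite
image. -/
def FiniteOver (A : Type) [CommRing A] [IsLocalRing A] : Prop :=
  ∀ _ : TopologicalSpace A, IsAdic (maximalIdeal A) →
    ∀ (K : IntermediateField ℚ (AlgebraicClosure ℚ)), FiniteDimensional ℚ K →
    ∀ S : Set (Ideal (𝓞 K)), S.Finite → ∀ (n : ℕ) (ρ : K.fixingSubgroup →* GL (Fin n) A),
      Continuous ρ → Tame K S ρ → (Set.range ρ).Finite

/-- the primes of `K'` above the primes in `S` -/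
def above (K : IntermediateField ℚ (AlgebraicClosure ℚ)) (S : Set (Ideal (𝓞 K)))
    (K' : IntermediateField ℚ (AlgebraicClosure ℚ)) : Set (Ideal (𝓞 K')) :=
  {q | ∃ P : Ideal ZBar, P.IsMaximal ∧ below K P ∈ S ∧ q = below K' P}

/-- No finite extension `K'` of `K` has a `ℤ_p`-extension which is unramified outside `S` and at most
tamely ramified at `S` (this is true by class field theory). -/
def NoZpExtension (p : ℕ) [Fact p.Prime] (K : IntermediateField ℚ (AlgebraicClosure ℚ))
    (S : Set (Ideal (𝓞 K))) : Prop :=
  ∀ K' : IntermediateField ℚ (AlgebraicClosure ℚ), K ≤ K' → FiniteDimensional ℚ K' →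
    ∀ χ : K'.fixingSubgroup →* Multiplicative ℤ_[p], Continuous χ → Tame K' (above K S K') χ →
      ∀ g, χ g = 1

/-- `P` is a prime ideal with `dim A / P = 1`: it is prime and not maximal, and the prime ideals that
contain it properly are maximal. -/
def OneDimensional {A : Type} [CommRing A] (P : Ideal A) : Prop :=
  P.IsPrime ∧ ¬ P.IsMaximal ∧ ∀ Q : Ideal A, Q.IsPrime → P < Q → Q.IsMaximal

theorem oneDimensional_of_cur {A : Type} [CommRing A] {P : Ideal A}
    (h : Pool.Agent.L5helper66.TF.Cur P) : OneDimensional P := by
  refine ⟨h.1, h.2.1, fun Q hQ hPQ => ?_⟩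
  have h1 : Q.map (Ideal.Quotient.mk P) ≠ ⊥ := by
    intro h0
    rw [Ideal.map_eq_bot_iff_le_ker, Ideal.mk_ker] at h0
    exact absurd h0 (not_le_of_gt hPQ)
  have h2 := h.2.2 _ h1
  have hprime : (Q.map (Ideal.Quotient.mk P)).IsPrime :=
    Ideal.map_isPrime_of_surjective Ideal.Quotient.mk_surjective (by rw [Ideal.mk_ker]; exact hPQ.le)
  have hmax : (Q.map (Ideal.Quotient.mk P)).IsMaximal := by
    have : IsField ((A ⧸ P) ⧸ Q.map (Ideal.Quotient.mk P)) := Finite.isField_of_domain _
    exact Ideal.Quotient.maximal_of_isField _ this
  have h3 := Ideal.comap_isMaximal_of_surjective (Ideal.Quotient.mk P)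
    Ideal.Quotient.mk_surjective (K := Q.map (Ideal.Quotient.mk P))
  rwa [Ideal.comap_map_mk hPQ.le] at h3

open PowerSeries in
theorem result (p : ℕ) [Fact p.Prime] :
    ((∀ (A : Type) [CommRing A] [IsLocalRing A] [IsNoetherianRing A],
        IsAdicComplete (maximalIdeal A) A → Finite (ResidueField A) → (p : A) ∈ maximalIdeal A →
        FiniteOver A) ↔
      FiniteOver ℤ_[p] ∧ FiniteOver (ZMod p)⟦X⟧) ∧
    ∀ (K : IntermediateField ℚ (AlgebraicClosure ℚ)) [FiniteDimensional ℚ K]
      (S : Set (Ideal (𝓞 K))), S.Finite → NoZpExtension p K S →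
      ∀ (A : Type) [CommRing A] [IsLocalRing A] [IsNoetherianRing A] [TopologicalSpace A],
      IsAdic (maximalIdeal A) → Finite (ResidueField A) → (p : A) ∈ maximalIdeal A →
      ∀ (n : ℕ) (ρ : K.fixingSubgroup →* GL (Fin n) A), Continuous ρ → Tame K S ρ →
      (∀ P : Ideal A, OneDimensional P → ∀ g, ∃ N : ℕ, N ≠ 0 ∧
        ∀ i j, ((ρ g ^ N : GL (Fin n) A) : Matrix (Fin n) (Fin n) A) i j -
          (1 : Matrix (Fin n) (Fin n) A) i j ∈ P) →
      (Set.range ρ).Finite := by
  refine ⟨⟨fun h => ⟨?_, ?_⟩, ?_⟩, ?_⟩
  · refine h ℤ_[p] inferInstance ?_ ?_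
    · have e : ResidueField ℤ_[p] ≃+* ZMod p := PadicInt.residueField
      exact Finite.of_equiv _ e.symm.toEquiv
    · rw [PadicInt.maximalIdeal_eq_span_p]
      exact Ideal.mem_span_singleton_self _
  · have hπ : maximalIdeal (ZMod p)⟦X⟧ = Ideal.span {PowerSeries.X} := maximalIdeal_eq_span_X
    refine h (ZMod p)⟦X⟧ ?_ ?_ ?_
    · rw [hπ]
      infer_instance
    · exact Finite.of_equiv _ (PowerSeries.residueFieldOfPowerSeries (k := ZMod p)).symm.toEquiv
    · have h0 : ((p : ℕ) : (ZMod p)⟦X⟧) = 0 := by
        rw [← map_natCast (PowerSeries.C (R := ZMod p)), CharP.cast_eq_zero, map_zero]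
      rw [h0]
      exact Ideal.zero_mem _
  · rintro ⟨hZ, hF⟩ A _ _ _ hcomp hfin hp
    exact Pool.Agent.L5helper66.TF.main_red hZ hF A (hcomp := hcomp) hfin hp
  · intro K _ S hS hN A _ _ _ _ hA hfin hp n ρ hρ hT hD
    refine Pool.Agent.L5helper66.TF.main_points K hS hN A hA hfin hp n ρ hρ hT fun P hP g => ?_
    obtain ⟨N, hN, h1⟩ := hD P (oneDimensional_of_cur hP) g
    refine ⟨N, hN, fun i j => ?_⟩
    rw [Pool.Agent.L5helper66.TF.xx, Matrix.sub_apply, map_pow]
    exact h1 i j

end Pool.Agent.Results.MP_924d78_nt.TwoCoefficientRings
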